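import Pool.Agent.TH540.PairCertData

/-!
# Voisin's conjecture for the Delsarte members of the family (quintic and line)

Let `f(x, y, z)` be a sum of three monomials of degree `5` and let `S` be the K3 surface which resolves the
double plane `t ^ 2 = x f(x, y, z)`, branched along the line `x = 0` and the quintic `f = 0`. Up to the
exchange of `y` and `z` there are 47 such `f`, not divisible by `y` or `z`, for which the sextic `x f` is
reduced with at most simple singularities (and the matrix of exponents is regular). `surfaces` lists 45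
of them; the missing ones are `z ^ 5 + y ^ 4 z + x ^ 4 y` and `z ^ 5 + y ^ 5 + x ^ 4 z`. (The count 47, found
with the Newton polygons at the coordinate points, is not formalised. If `f` is divisible by `y` or `z`,
then the sextic is the union of a conic and a quartic, a known case.)

The surface `S` is birational to a quotient of a Fermat surface by diagonal automorphisms. Its
holomorphic 2-form has the character `w / m`, `w = [w_0, w_1, w_2, w_3]`, where
`(t ^ 2) ^ {w_0 / m} ∏ (x M_j) ^ {w_j / m} = t x y z` for the monomials `M_j` of `f` (`HasType`). By Lefschetz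
(1,1) and Kimura the transcendental motive `t_2(S)` is, with coefficients in the `m`-th cyclotomic
field, the sum of the motives `V(u w)` of rank one and parity 0, `u` in the units modulo `m`. Here for a
list `s` with sum zero modulo `m` and entries not divisible by `m`, `V(s)` is the direct summand of the
motive of the Fermat variety of degree `m` and dimension `|s| - 2` with character `s`.

Known facts (Shioda, Katsura), for lists `s`, `s'` of this kind: `V(s ++ s') = V(s) ⊗ V(s')(-1)`;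
`V([x, m - x])` is the unit motive; if `b` is algebraic (`IsAlgebraic`), then all conjugates of `V(b)` have
Hodge type (1,1), and `V(b)` is the Lefschetz motive `L = 1(-1)`. Let `s = w ++ t w`. If `s` with `|p|` pairs
`x, m - x` is composed of blocks `P` and algebraic lists `Q`, then comparing both sides
`V(w) ⊗ V(t w)(-1 - |p|)` is `M(-(|P| + 2 |Q| - 1))` with `M` effective. So `V(w) ⊗ V(t w)` is `M(-c)` with
`c ≥ 1` if `|P| + 2 |Q| ≥ |p| + 3` (`Divisible`), and has no zero-cycles.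

The theorem says that this holds for all 45 surfaces and all `t ≠ 1`. Applying units, one gets that
`z × z' = 0` for zero-cycles `z` in `CH_0(V(u w))`, `z'` in `CH_0(V(u' w))`, `u ≠ u'`. On `V(u w) ⊗ V(u w)`
the exchange of factors is the identity (rank one, parity 0, Kimura). As the zero-cycles of degree zero on
`S` are the sum of the `CH_0(V(u w))`, it follows that `z × z' = z' × z` for all of them: Voisin's
conjecture holds for the 45 surfaces (with rational coefficients, hence by Roitman with integer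
coefficients).
-/

namespace Pool.Agent.Results.MP_60b111_ag.DelsarteQuintics

open TH540.PC

/-- Entries `(m, w, [M_1, M_2, M_3])`: `f` is the sum of the monomials `x ^ a y ^ b z ^ c` with
`(a, b, c)` in the last list. -/
def surfaces : List (ℕ × List ℕ × List (ℕ × ℕ × ℕ)) :=
  [ (6, [3, 1, 1, 1], [(0, 0, 5), (0, 4, 1), (3, 2, 0)]),
    (6, [3, 1, 1, 1], [(0, 0, 5), (0, 5, 0), (3, 1, 1)]),
    (6, [3, 1, 1, 1], [(0, 0, 5), (1, 3, 1), (2, 3, 0)]),
    (6, [3, 1, 1, 1], [(0, 0, 5), (1, 4, 0), (2, 2, 1)]),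
    (6, [3, 1, 1, 1], [(0, 2, 3), (1, 4, 0), (2, 0, 3)]),
    (8, [4, 1, 1, 2], [(0, 0, 5), (0, 2, 3), (2, 3, 0)]),
    (8, [4, 1, 2, 1], [(0, 0, 5), (1, 4, 0), (2, 0, 3)]),
    (8, [4, 2, 1, 1], [(0, 2, 3), (1, 4, 0), (3, 0, 2)]),
    (10, [5, 2, 2, 1], [(0, 0, 5), (0, 5, 0), (5, 0, 0)]),
    (10, [5, 2, 1, 2], [(0, 0, 5), (1, 4, 0), (2, 3, 0)]),
    (10, [5, 2, 2, 1], [(0, 0, 5), (1, 4, 0), (3, 2, 0)]),
    (10, [5, 2, 2, 1], [(0, 1, 4), (0, 4, 1), (5, 0, 0)]),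
    (10, [5, 2, 2, 1], [(0, 1, 4), (1, 4, 0), (3, 0, 2)]),
    (10, [5, 2, 2, 1], [(0, 2, 3), (0, 3, 2), (5, 0, 0)]),
    (10, [5, 2, 1, 2], [(0, 2, 3), (1, 0, 4), (2, 3, 0)]),
    (10, [5, 1, 3, 1], [(0, 1, 4), (0, 3, 2), (5, 0, 0)]),
    (10, [5, 3, 1, 1], [(0, 2, 3), (1, 4, 0), (4, 0, 1)]),
    (12, [6, 2, 1, 3], [(0, 0, 5), (0, 3, 2), (2, 3, 0)]),
    (12, [6, 2, 3, 1], [(0, 0, 5), (1, 4, 0), (3, 0, 2)]),
    (12, [6, 3, 1, 2], [(0, 2, 3), (2, 0, 3), (2, 3, 0)]),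
    (12, [6, 4, 1, 1], [(0, 2, 3), (1, 4, 0), (5, 0, 0)]),
    (14, [7, 2, 3, 2], [(0, 0, 5), (1, 4, 0), (2, 1, 2)]),
    (14, [7, 2, 3, 2], [(0, 1, 4), (1, 4, 0), (2, 0, 3)]),
    (14, [7, 2, 4, 1], [(0, 0, 5), (1, 3, 1), (3, 2, 0)]),
    (14, [7, 4, 2, 1], [(0, 2, 3), (1, 3, 1), (5, 0, 0)]),
    (14, [7, 4, 2, 1], [(0, 2, 3), (2, 3, 0), (3, 0, 2)]),
    (16, [8, 3, 1, 4], [(0, 0, 5), (0, 4, 1), (2, 3, 0)]),
    (16, [8, 3, 4, 1], [(0, 0, 5), (1, 4, 0), (4, 0, 1)]),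
    (16, [8, 4, 3, 1], [(0, 1, 4), (1, 4, 0), (5, 0, 0)]),
    (16, [8, 5, 2, 1], [(0, 2, 3), (2, 3, 0), (4, 0, 1)]),
    (18, [9, 2, 4, 3], [(0, 0, 5), (0, 3, 2), (3, 2, 0)]),
    (18, [9, 6, 2, 1], [(0, 2, 3), (2, 3, 0), (5, 0, 0)]),
    (20, [10, 3, 5, 2], [(0, 0, 5), (0, 4, 1), (5, 0, 0)]),
    (20, [10, 2, 3, 5], [(0, 0, 5), (0, 5, 0), (2, 1, 2)]),
    (20, [10, 1, 4, 5], [(0, 0, 5), (0, 5, 0), (2, 0, 3)]),
    (20, [10, 4, 5, 1], [(0, 0, 5), (1, 4, 0), (5, 0, 0)]),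
    (22, [11, 4, 5, 2], [(0, 0, 5), (1, 4, 0), (3, 1, 1)]),
    (22, [11, 4, 6, 1], [(0, 1, 4), (1, 3, 1), (5, 0, 0)]),
    (22, [11, 3, 7, 1], [(0, 0, 5), (1, 3, 1), (4, 1, 0)]),
    (24, [12, 2, 7, 3], [(0, 0, 5), (0, 3, 2), (4, 1, 0)]),
    (26, [13, 6, 5, 2], [(0, 1, 4), (1, 4, 0), (4, 0, 1)]),
    (30, [15, 4, 6, 5], [(0, 0, 5), (0, 5, 0), (3, 0, 2)]),
    (30, [15, 6, 7, 2], [(0, 0, 5), (1, 4, 0), (4, 1, 0)]),
    (30, [15, 2, 10, 3], [(0, 0, 5), (0, 3, 2), (5, 0, 0)]),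
    (30, [15, 4, 10, 1], [(0, 0, 5), (1, 3, 1), (5, 0, 0)])]

/-- The monomials have degree 5, and the holomorphic 2-form on `t ^ 2 = x (M_1 + M_2 + M_3)` has the
character `w` modulo `m`: `(t ^ 2) ^ {w_0} ∏ (x M_j) ^ {w_j} = (t x y z) ^ m`. -/
def HasType (m : ℕ) : List ℕ → List (ℕ × ℕ × ℕ) → Prop
  | [w0, w1, w2, w3], [M1, M2, M3] =>
    (M1.1 + M1.2.1 + M1.2.2 = 5 ∧ M2.1 + M2.2.1 + M2.2.2 = 5 ∧ M3.1 + M3.2.1 + M3.2.2 = 5) ∧
      2 * w0 = m ∧
        w1 * (M1.1 + 1) + w2 * (M2.1 + 1) + w3 * (M3.1 + 1) = m ∧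
          w1 * M1.2.1 + w2 * M2.2.1 + w3 * M3.2.1 = m ∧
            w1 * M1.2.2 + w2 * M2.2.2 + w3 * M3.2.2 = m
  | _, _ => False

instance (m : ℕ) (w : List ℕ) (M : List (ℕ × ℕ × ℕ)) : Decidable (HasType m w M) := by
  unfold HasType
  split <;> infer_instance

theorem result :
    surfaces.length = 45 ∧ (surfaces.map fun e => e.2.2).Nodup ∧
      ∀ e ∈ surfaces, HasType e.1 e.2.1 e.2.2 ∧
        ∀ t, 1 < t → t < e.1 → Nat.Coprime t e.1 →
          Divisible e.1 (e.2.1 ++ e.2.1.map fun x => t * x % e.1) := by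
  refine ⟨by decide +kernel, by decide +kernel, ?_⟩
  have h1 : ∀ e ∈ surfaces, HasType e.1 e.2.1 e.2.2 := by decide +kernel
  have h2 : ∀ e ∈ surfaces, ∃ c ∈ certs.map fun e => (e.1, e.2.1), c.1 = e.1 ∧
      c.2.Perm e.2.1 := by decide +kernel
  intro e he
  refine ⟨h1 e he, ?_⟩
  intro t t1 t2 t3
  obtain ⟨⟨m, w⟩, hc, h3, h4⟩ := h2 e he
  simp only at h3 h4
  subst h3
  exact (divisible_of_mem hc t t1 t2 t3).perm (h4.append (h4.map _))

end Pool.Agent.Results.MP_60b111_ag.DelsarteQuintics
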